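import Pool.Agent.RSU.Main

set_option autoImplicit false

namespace Pool.Agent.RSU

open Finset

theorem q_big {α : ℝ} (hα : 0 < α) (hα1 : α ≤ 1 / 200) :
    α ^ (-(1 / 2) : ℝ) ≤ (⌊1 / (10 * α)⌋₊ : ℝ) := by
  have h1 : 1 / (10 * α) < (⌊1 / (10 * α)⌋₊ : ℝ) + 1 := Nat.lt_floor_add_one _
  have h2 : α ^ (-(1 / 2) : ℝ) = (Real.sqrt α)⁻¹ := by
    rw [Real.rpow_neg hα.le, Real.sqrt_eq_rpow]
  rw [h2]
  have hs : 0 < Real.sqrt α := Real.sqrt_pos.2 hα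
  have hss : Real.sqrt α * Real.sqrt α = α := Real.mul_self_sqrt hα.le
  have hs1 : Real.sqrt α ≤ 9 / 100 := by
    rw [Real.sqrt_le_left (by norm_num)]
    norm_num
    linarith
  set t := Real.sqrt α with ht
  have h3 : 1 / (10 * α) = (1 / (10 * t)) * t⁻¹ := by
    rw [← hss]; field_simp
  have h4 : t⁻¹ + 1 ≤ 1 / (10 * α) := by
    rw [← hss]
    rw [le_div_iff₀ (by positivity)]
    have h5 : (t⁻¹ + 1) * (10 * (t * t)) = 10 * t + 10 * (t * t) := by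
      field_simp
    rw [h5]
    nlinarith
  linarith

theorem final {α δ : ℝ} (hα : 0 < α) (hαδ : α ≤ δ) (hδ : δ ≤ 1 / 200) (N : ℕ) :
    ∃ (V : Type) (_ : Fintype V) (_ : DecidableEq V) (G : SimpleGraph V)
      (_ : DecidableRel G.Adj), N ≤ Fintype.card V ∧
      ∀ U : Finset V, U.Nonempty →
        (∀ A, A ⊆ U → ∀ B, B ⊆ U → α * U.card ≤ A.card → α * U.card ≤ B.card →
          (G.edgeDensity A B : ℝ) ≤ (G.edgeDensity U U : ℝ) + δ) →
        (U.card : ℝ) < α ^ (1 / (50 * δ)) * (Fintype.card V : ℝ) := by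
  have hδ0 : 0 < δ := lt_of_lt_of_le hα hαδ
  have hα1 : α ≤ 1 / 200 := hαδ.trans hδ
  set q := ⌊1 / (10 * α)⌋₊ with hq
  set n0 := ⌊1 / (20 * δ)⌋₊ with hn0
  have hqbig := q_big hα hα1
  rw [← hq] at hqbig
  have hqle : (q : ℝ) ≤ 1 / (10 * α) := Nat.floor_le (by positivity)
  have hn0le : (n0 : ℝ) ≤ 1 / (20 * δ) := Nat.floor_le (by positivity)
  have hn0gt : 1 / (20 * δ) < (n0 : ℝ) + 1 := Nat.lt_floor_add_one _
  have h20 : 10 ≤ 1 / (20 * δ) := by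
    rw [le_div_iff₀ (by positivity)]; linarith
  have hn0pos : n0 ≠ 0 := by
    intro h
    rw [h] at hn0gt
    norm_num at hn0gt
    have : 1 / (20 * δ) = δ⁻¹ * 20⁻¹ := by field_simp
    norm_num at this h20
    linarith
  obtain ⟨p, hpp, hp1, hp2⟩ := Nat.exists_prime_lt_and_le_two_mul n0 hn0pos
  have : Fact p.Prime := ⟨hpp⟩
  have hpδ : 10 * δ * p ≤ 1 := by
    have h1 : (p : ℝ) ≤ 2 * n0 := by exact_mod_cast hp2
    have h2 : (p : ℝ) ≤ 2 * (1 / (20 * δ)) := by linarith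
    calc 10 * δ * p ≤ 10 * δ * (2 * (1 / (20 * δ))) := by gcongr
      _ = 1 := by field_simp; norm_num
  have hqα : 10 * α * q ≤ 1 := by
    calc 10 * α * q ≤ 10 * α * (1 / (10 * α)) := by gcongr
      _ = 1 := by field_simp
  have hq0' : (0 : ℝ) < q := lt_of_lt_of_le (Real.rpow_pos_of_pos hα _) hqbig
  have hq0 : 0 < q := by exact_mod_cast hq0'
  set β : ℝ := α ^ (1 / (50 * δ)) with hβ
  have hβ0 : 0 < β := Real.rpow_pos_of_pos hα _
  have hkey : 2 < β * (q : ℝ) ^ (p - 1) := by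
    have h1 : (α ^ (-(1 / 2) : ℝ)) ^ (p - 1) ≤ (q : ℝ) ^ (p - 1) := by
      gcongr
    have h2 : (α ^ (-(1 / 2) : ℝ)) ^ (p - 1) = α ^ (-(1 / 2) * ((p - 1 : ℕ) : ℝ)) := by
      rw [← Real.rpow_natCast, ← Real.rpow_mul hα.le]
    have h3 : β * α ^ (-(1 / 2) * ((p - 1 : ℕ) : ℝ)) =
        α ^ (1 / (50 * δ) + -(1 / 2) * ((p - 1 : ℕ) : ℝ)) := by
      rw [hβ, ← Real.rpow_add hα]
    have h4 : (n0 : ℝ) ≤ ((p - 1 : ℕ) : ℝ) := by
      have : n0 ≤ p - 1 := by omega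
      exact_mod_cast this
    have h5 : 1 / (50 * δ) + -(1 / 2) * ((p - 1 : ℕ) : ℝ) ≤ -(1 / 2) := by
      have e1 : 1 / (50 * δ) = 2 / 5 * (1 / (20 * δ)) := by field_simp; norm_num
      rw [e1]
      linarith
    have h6 : α ^ (-(1 / 2) : ℝ) ≤ α ^ (1 / (50 * δ) + -(1 / 2) * ((p - 1 : ℕ) : ℝ)) :=
      Real.rpow_le_rpow_of_exponent_ge hα (by linarith) h5
    have h7 : 2 < α ^ (-(1 / 2) : ℝ) := by
      have e2 : α ^ (-(1 / 2) : ℝ) = (Real.sqrt α)⁻¹ := by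
        rw [Real.rpow_neg hα.le, Real.sqrt_eq_rpow]
      have hs : 0 < Real.sqrt α := Real.sqrt_pos.2 hα
      have hs1 : Real.sqrt α ≤ 9 / 100 := by
        rw [Real.sqrt_le_left (by norm_num)]
        norm_num
        linarith
      rw [e2, lt_inv_comm₀ (by norm_num) hs]
      norm_num
      linarith
    calc 2 < α ^ (-(1 / 2) : ℝ) := h7
      _ ≤ β * α ^ (-(1 / 2) * ((p - 1 : ℕ) : ℝ)) := by rw [h3]; exact h6
      _ ≤ β * (q : ℝ) ^ (p - 1) := by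
          rw [← h2]
          gcongr
  have hp2' : (1 : ℝ) < p := by exact_mod_cast hpp.one_lt
  have hp0 : (0 : ℝ) < p := by linarith
  obtain ⟨s, hs⟩ := pow_unbounded_of_one_lt (4 * p / (δ * (α * β) ^ 2) + N) hp2'
  have hs1 : 4 * p / (δ * (α * β) ^ 2) ≤ (p : ℝ) ^ s := by
    have : (0 : ℝ) ≤ N := by positivity
    linarith
  have hs2 : (N : ℝ) ≤ (p : ℝ) ^ s := by
    have : (0 : ℝ) ≤ 4 * p / (δ * (α * β) ^ 2) := by positivity
    linarith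
  refine ⟨(Fin p → Fin q) × (Fin (2 * s) → ZMod p), inferInstance, inferInstance,
    GG p q (2 * s), inferInstance, ?_, ?_⟩
  · have hc : Fintype.card ((Fin p → Fin q) × (Fin (2 * s) → ZMod p)) = q ^ p * p ^ (2 * s) := by
      rw [Fintype.card_prod, Fintype.card_fun, Fintype.card_fun, Fintype.card_fin,
        Fintype.card_fin, Fintype.card_fin, ZMod.card]
    rw [hc]
    have h1 : N ≤ p ^ s := by exact_mod_cast hs2
    calc N ≤ p ^ s := h1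
      _ ≤ p ^ (2 * s) := Nat.pow_le_pow_right hpp.pos (by omega)
      _ = 1 * p ^ (2 * s) := (one_mul _).symm
      _ ≤ q ^ p * p ^ (2 * s) := Nat.mul_le_mul_right _ (Nat.pow_pos hq0)
  · intro U hU hreg
    have hc : (Fintype.card ((Fin p → Fin q) × (Fin (2 * s) → ZMod p)) : ℝ) =
        (q : ℝ) ^ p * (p : ℝ) ^ (2 * s) := by
      rw [Fintype.card_prod, Fintype.card_fun, Fintype.card_fun, Fintype.card_fin,
        Fintype.card_fin, Fintype.card_fin, ZMod.card]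
      push_cast
      rfl
    rw [hc]
    by_contra hcon
    push Not at hcon
    have hn : (0 : ℝ) < (q : ℝ) ^ p * (p : ℝ) ^ (2 * s) := by positivity
    have h1 : ((q : ℝ) ^ p) ^ 2 * (p : ℝ) ^ (3 * s + 1) ≤ δ / 4 * (α * U.card) ^ 2 := by
      have h2 : (α * (β * ((q : ℝ) ^ p * (p : ℝ) ^ (2 * s)))) ^ 2 ≤ (α * U.card) ^ 2 := by
        gcongr
      have h3 : 4 * p ≤ (p : ℝ) ^ s * (δ * (α * β) ^ 2) := by
        rwa [div_le_iff₀ (by positivity)] at hs1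
      calc ((q : ℝ) ^ p) ^ 2 * (p : ℝ) ^ (3 * s + 1)
          = (((q : ℝ) ^ p) ^ 2 * (p : ℝ) ^ (3 * s)) / 4 * (4 * p) := by ring
        _ ≤ (((q : ℝ) ^ p) ^ 2 * (p : ℝ) ^ (3 * s)) / 4 * ((p : ℝ) ^ s * (δ * (α * β) ^ 2)) := by
            gcongr
        _ = δ / 4 * (α * (β * ((q : ℝ) ^ p * (p : ℝ) ^ (2 * s)))) ^ 2 := by ring
        _ ≤ _ := by gcongr
    have h2 := main_bound hq0 hα hαδ hpδ hqα U hU h1 hreg
    have h3 : β * ((q : ℝ) ^ p * (p : ℝ) ^ (2 * s)) ≤ 2 * q * (p : ℝ) ^ (2 * s) := hcon.trans h2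
    have h4 : (q : ℝ) ^ p = (q : ℝ) ^ (p - 1) * q := by
      rw [← pow_succ]
      congr 1
      have := hpp.pos
      omega
    rw [h4] at h3
    have h5 : 0 < (q : ℝ) * (p : ℝ) ^ (2 * s) := by positivity
    have h6 : β * (q : ℝ) ^ (p - 1) * ((q : ℝ) * (p : ℝ) ^ (2 * s)) ≤
        2 * ((q : ℝ) * (p : ℝ) ^ (2 * s)) := by
      calc β * (q : ℝ) ^ (p - 1) * ((q : ℝ) * (p : ℝ) ^ (2 * s))
          = β * ((q : ℝ) ^ (p - 1) * q * (p : ℝ) ^ (2 * s)) := by ring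
        _ ≤ _ := h3
        _ = _ := by ring
    have h7 := le_of_mul_le_mul_right h6 h5
    linarith

end Pool.Agent.RSU
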