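import Mathlib

set_option autoImplicit false

namespace Pool.Agent.RSU

open Finset

variable {p : ℕ} [Fact p.Prime] {k : ℕ}

/-- The character `x ↦ ψ(t (x·z))`. -/
noncomputable def chr (t : ZMod p) (z : Fin k → ZMod p) : AddChar (Fin k → ZMod p) ℂ where
  toFun x := ZMod.stdAddChar (t * (x ⬝ᵥ z))
  map_zero_eq_one' := by simp
  map_add_eq_mul' x y := by
    rw [add_dotProduct, mul_add, AddChar.map_add_eq_mul]

theorem chr_apply (t : ZMod p) (z x : Fin k → ZMod p) :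
    chr t z x = ZMod.stdAddChar (t * (x ⬝ᵥ z)) := rfl

theorem full_sum (t : ZMod p) (ht : t ≠ 0) (z : Fin k → ZMod p) :
    ∑ x : Fin k → ZMod p, ZMod.stdAddChar (t * (x ⬝ᵥ z)) =
      if z = 0 then (p : ℂ) ^ k else 0 := by
  split_ifs with hz
  · subst hz
    simp [ZMod.card]
  · obtain ⟨i, hi⟩ : ∃ i, z i ≠ 0 := by
      by_contra hcon
      push Not at hcon
      exact hz (funext hcon)
    have hne : chr t z ≠ 1 := by
      intro hcon
      have h1 : chr t z (Pi.single i ((t * z i)⁻¹)) = 1 := by rw [hcon]; simp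
      rw [chr_apply, single_dotProduct] at h1
      have h2 : t * ((t * z i)⁻¹ * z i) = 1 := by
        field_simp
      rw [h2] at h1
      have h3 : (1 : ZMod p) = 0 := by
        apply ZMod.injective_stdAddChar
        rw [h1]; simp
      exact one_ne_zero h3
    exact AddChar.sum_eq_zero_of_ne_one hne

theorem T_bound (t : ZMod p) (ht : t ≠ 0) (X Y : Finset (Fin k → ZMod p)) :
    ‖∑ x ∈ X, ∑ y ∈ Y, (ZMod.stdAddChar (t * (x ⬝ᵥ y)) : ℂ)‖ ^ 2 ≤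
      (X.card : ℝ) * Y.card * (p : ℝ) ^ k := by
  set S : (Fin k → ZMod p) → ℂ := fun x => ∑ y ∈ Y, ZMod.stdAddChar (t * (x ⬝ᵥ y)) with hS
  have h1 : ‖∑ x ∈ X, S x‖ ^ 2 ≤ (X.card : ℝ) * ∑ x ∈ X, ‖S x‖ ^ 2 := by
    calc ‖∑ x ∈ X, S x‖ ^ 2 ≤ (∑ x ∈ X, ‖S x‖) ^ 2 := by
          gcongr
          exact norm_sum_le _ _
      _ ≤ _ := sq_sum_le_card_mul_sum_sq
  have h2 : ∑ x ∈ X, ‖S x‖ ^ 2 ≤ ∑ x, ‖S x‖ ^ 2 :=
    sum_le_sum_of_subset_of_nonneg (subset_univ _) (fun _ _ _ => by positivity)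
  have h3 : ((∑ x, ‖S x‖ ^ 2 : ℝ) : ℂ) = (Y.card : ℂ) * (p : ℂ) ^ k := by
    push_cast
    have : ∀ x, ((‖S x‖ : ℂ)) ^ 2 = ∑ y ∈ Y, ∑ y' ∈ Y, ZMod.stdAddChar (t * (x ⬝ᵥ (y - y'))) := by
      intro x
      rw [← Complex.mul_conj', hS]
      simp only [map_sum, sum_mul_sum]
      refine sum_congr rfl fun y _ => sum_congr rfl fun y' _ => ?_
      rw [dotProduct_sub, mul_sub, sub_eq_add_neg, AddChar.map_add_eq_mul]
      congr 1
      exact (AddChar.map_neg_eq_conj _ _).symm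
    simp_rw [this]
    rw [sum_comm]
    have h4 : ∀ y ∈ Y, ∑ x : Fin k → ZMod p, ∑ y' ∈ Y,
        (ZMod.stdAddChar (t * (x ⬝ᵥ (y - y'))) : ℂ) = (p : ℂ) ^ k := by
      intro y hy
      rw [sum_comm]
      simp_rw [full_sum t ht, sub_eq_zero]
      rw [sum_ite_eq]
      simp [hy]
    rw [sum_congr rfl h4]
    simp
  have h5 : (∑ x, ‖S x‖ ^ 2 : ℝ) = (Y.card : ℝ) * (p : ℝ) ^ k := by
    exact_mod_cast h3
  calc ‖∑ x ∈ X, S x‖ ^ 2 ≤ (X.card : ℝ) * ∑ x ∈ X, ‖S x‖ ^ 2 := h1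
    _ ≤ (X.card : ℝ) * ∑ x, ‖S x‖ ^ 2 := by gcongr
    _ = _ := by rw [h5]; ring

theorem ind_eq (z u : ZMod p) :
    ∑ t : ZMod p, (ZMod.stdAddChar (t * (z - u)) : ℂ) = if z = u then (p : ℂ) else 0 := by
  have h1 := AddChar.sum_mulShift (R := ZMod p) (R' := ℂ) (ψ := ZMod.stdAddChar) (z - u)
    (ZMod.isPrimitive_stdAddChar p)
  rw [h1, ZMod.card]
  simp [sub_eq_zero]

theorem count_eq (X Y : Finset (Fin k → ZMod p)) (S : Finset (ZMod p)) :
    (p : ℂ) * (((X ×ˢ Y).filter (fun z => z.1 ⬝ᵥ z.2 ∈ S)).card : ℂ) =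
      ∑ t : ZMod p, (∑ u ∈ S, (ZMod.stdAddChar (-(t * u)) : ℂ)) *
        ∑ x ∈ X, ∑ y ∈ Y, (ZMod.stdAddChar (t * (x ⬝ᵥ y)) : ℂ) := by
  have h1 : (((X ×ˢ Y).filter (fun z => z.1 ⬝ᵥ z.2 ∈ S)).card : ℂ) =
      ∑ x ∈ X, ∑ y ∈ Y, ∑ u ∈ S, (if x ⬝ᵥ y = u then (1 : ℂ) else 0) := by
    rw [card_filter]
    push_cast
    rw [sum_product]
    refine sum_congr rfl fun x _ => sum_congr rfl fun y _ => ?_
    rw [sum_ite_eq]
  rw [h1]
  have h2 : ∀ t : ZMod p, (∑ u ∈ S, (ZMod.stdAddChar (-(t * u)) : ℂ)) *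
        ∑ x ∈ X, ∑ y ∈ Y, (ZMod.stdAddChar (t * (x ⬝ᵥ y)) : ℂ) =
      ∑ x ∈ X, ∑ y ∈ Y, ∑ u ∈ S, (ZMod.stdAddChar (t * (x ⬝ᵥ y - u)) : ℂ) := by
    intro t
    rw [mul_sum]
    refine sum_congr rfl fun x _ => ?_
    rw [mul_sum]
    refine sum_congr rfl fun y _ => ?_
    rw [sum_mul]
    refine sum_congr rfl fun u _ => ?_
    rw [← AddChar.map_add_eq_mul]
    congr 1
    ring
  simp_rw [h2]
  symm
  rw [sum_comm, mul_sum]
  refine sum_congr rfl fun x _ => ?_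
  rw [sum_comm, mul_sum]
  refine sum_congr rfl fun y _ => ?_
  rw [sum_comm, mul_sum]
  refine sum_congr rfl fun u _ => ?_
  rw [ind_eq]
  split_ifs <;> simp

theorem count_err (X Y : Finset (Fin k → ZMod p)) (S : Finset (ZMod p)) (E : ℝ) (hE : 0 ≤ E)
    (hT : (X.card : ℝ) * Y.card * (p : ℝ) ^ k ≤ E ^ 2) :
    |(((X ×ˢ Y).filter (fun z => z.1 ⬝ᵥ z.2 ∈ S)).card : ℝ) -
      (S.card : ℝ) / p * (X.card * Y.card)| ≤ p * E := by
  have hp : (0 : ℝ) < p := by exact_mod_cast (Fact.out : p.Prime).pos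
  have h1 := count_eq X Y S
  rw [← add_sum_erase univ _ (mem_univ (0 : ZMod p))] at h1
  simp only [zero_mul, neg_zero, AddChar.map_zero_eq_one, sum_const, nsmul_eq_mul, mul_one] at h1
  have h2 : ‖∑ t ∈ univ.erase (0 : ZMod p), (∑ u ∈ S, (ZMod.stdAddChar (-(t * u)) : ℂ)) *
        ∑ x ∈ X, ∑ y ∈ Y, (ZMod.stdAddChar (t * (x ⬝ᵥ y)) : ℂ)‖ ≤ p * (p * E) := by
    refine (norm_sum_le _ _).trans ?_
    have h3 : ∀ t ∈ univ.erase (0 : ZMod p), ‖(∑ u ∈ S, (ZMod.stdAddChar (-(t * u)) : ℂ)) *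
        ∑ x ∈ X, ∑ y ∈ Y, (ZMod.stdAddChar (t * (x ⬝ᵥ y)) : ℂ)‖ ≤ p * E := by
      intro t ht
      rw [norm_mul]
      have h4 : ‖∑ u ∈ S, (ZMod.stdAddChar (-(t * u)) : ℂ)‖ ≤ p := by
        refine (norm_sum_le _ _).trans ?_
        simp only [AddChar.norm_apply, sum_const, nsmul_eq_mul, mul_one]
        have : S.card ≤ p := by
          have := card_le_univ S
          rwa [ZMod.card] at this
        exact_mod_cast this
      have h5 : ‖∑ x ∈ X, ∑ y ∈ Y, (ZMod.stdAddChar (t * (x ⬝ᵥ y)) : ℂ)‖ ≤ E := by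
        have := (T_bound t (ne_of_mem_erase ht) X Y).trans hT
        exact (sq_le_sq₀ (norm_nonneg _) hE).1 this
      gcongr
    refine (sum_le_sum h3).trans ?_
    rw [sum_const, nsmul_eq_mul]
    have : ((univ.erase (0 : ZMod p)).card : ℝ) ≤ p := by
      have := card_le_univ (univ.erase (0 : ZMod p))
      rw [ZMod.card] at this
      exact_mod_cast this
    gcongr
  set N := ((X ×ˢ Y).filter (fun z => z.1 ⬝ᵥ z.2 ∈ S)).card with hN
  set R := ∑ t ∈ univ.erase (0 : ZMod p), (∑ u ∈ S, (ZMod.stdAddChar (-(t * u)) : ℂ)) *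
        ∑ x ∈ X, ∑ y ∈ Y, (ZMod.stdAddChar (t * (x ⬝ᵥ y)) : ℂ) with hR
  have h6 : R = (((p : ℝ) * ((N : ℝ) - (S.card : ℝ) / p * (X.card * Y.card)) : ℝ) : ℂ) := by
    have hp' : (p : ℂ) ≠ 0 := by exact_mod_cast hp.ne'
    push_cast
    field_simp
    linear_combination (-1 : ℂ) * h1
  rw [h6, Complex.norm_real, Real.norm_eq_abs, abs_mul, abs_of_pos hp] at h2
  exact le_of_mul_le_mul_left h2 hp

/-- The gadget: `(x·y).val < i` is quasirandom of density `i/p`. -/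
theorem gadget (s : ℕ) (X Y : Finset (Fin (2 * s) → ZMod p)) (i : ℕ) (hi : i ≤ p) :
    |(((X ×ˢ Y).filter (fun z => (z.1 ⬝ᵥ z.2).val < i)).card : ℝ) -
      (i : ℝ) / p * (X.card * Y.card)| ≤ (p : ℝ) ^ (3 * s + 1) := by
  have hp : 0 < p := (Fact.out : p.Prime).pos
  set S : Finset (ZMod p) := univ.filter (fun u => u.val < i) with hS
  have hSc : S.card = i := by
    have h1 : S = (univ : Finset (Fin i)).image (fun j : Fin i => ((j : ℕ) : ZMod p)) := by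
      ext u
      simp only [hS, mem_filter, mem_univ, true_and, mem_image]
      constructor
      · intro hu
        exact ⟨⟨u.val, hu⟩, ZMod.natCast_zmod_val u⟩
      · rintro ⟨j, rfl⟩
        rw [ZMod.val_natCast_of_lt (lt_of_lt_of_le j.2 hi)]
        exact j.2
    rw [h1, card_image_of_injective]
    · simp
    · intro a b hab
      have ha := ZMod.val_natCast_of_lt (lt_of_lt_of_le a.2 hi)
      have hb := ZMod.val_natCast_of_lt (lt_of_lt_of_le b.2 hi)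
      simp only at hab
      rw [hab, hb] at ha
      exact Fin.ext ha.symm
  have hc : ∀ Z : Finset (Fin (2 * s) → ZMod p), (Z.card : ℝ) ≤ (p : ℝ) ^ (2 * s) := by
    intro Z
    have := card_le_univ Z
    rw [Fintype.card_fun, ZMod.card, Fintype.card_fin] at this
    exact_mod_cast this
  have h2 := count_err X Y S ((p : ℝ) ^ (3 * s)) (by positivity) (by
    calc (X.card : ℝ) * Y.card * (p : ℝ) ^ (2 * s)
        ≤ (p : ℝ) ^ (2 * s) * (p : ℝ) ^ (2 * s) * (p : ℝ) ^ (2 * s) := by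
          gcongr
          · exact hc X
          · exact hc Y
      _ = _ := by ring)
  rw [hSc] at h2
  have h3 : (X ×ˢ Y).filter (fun z => (z.1 ⬝ᵥ z.2).val < i) =
      (X ×ˢ Y).filter (fun z => z.1 ⬝ᵥ z.2 ∈ S) := by
    apply filter_congr
    intro z _
    simp [hS]
  rw [h3]
  refine h2.trans (le_of_eq ?_)
  ring

end Pool.Agent.RSU
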