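import Mathlib

set_option autoImplicit false

namespace Pool.Agent.RSU

open Finset

variable {p q : ℕ}

/-- Length of the longest common initial segment. -/
def lev (a b : Fin p → Fin q) : ℕ :=
  ((range p).filter (fun i => ∀ j : Fin p, (j : ℕ) ≤ i → a j = b j)).card

theorem lev_comm (a b : Fin p → Fin q) : lev a b = lev b a := by
  unfold lev
  congr 1
  apply filter_congr
  intro i _
  simp [eq_comm]

theorem lev_le (a b : Fin p → Fin q) : lev a b ≤ p := by
  refine (card_filter_le _ _).trans ?_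
  simp

theorem lev_eq {a b : Fin p → Fin q} {k : ℕ} (hk : k < p)
    (h : ∀ j : Fin p, (j : ℕ) < k → a j = b j) (hne : a ⟨k, hk⟩ ≠ b ⟨k, hk⟩) : lev a b = k := by
  have h1 : (range p).filter (fun i => ∀ j : Fin p, (j : ℕ) ≤ i → a j = b j) = range k := by
    ext i
    simp only [mem_filter, mem_range]
    constructor
    · rintro ⟨_, hj⟩
      by_contra hcon
      push Not at hcon
      exact hne (hj ⟨k, hk⟩ hcon)
    · intro hi
      exact ⟨by omega, fun j hj => h j (by omega)⟩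
  unfold lev
  rw [h1, card_range]

theorem le_lev {a b : Fin p → Fin q} {k : ℕ} (hk : k ≤ p)
    (h : ∀ j : Fin p, (j : ℕ) < k → a j = b j) : k ≤ lev a b := by
  have h1 : range k ⊆ (range p).filter (fun i => ∀ j : Fin p, (j : ℕ) ≤ i → a j = b j) := by
    intro i hi
    rw [mem_range] at hi
    simp only [mem_filter, mem_range]
    exact ⟨by omega, fun j hj => h j (by omega)⟩
  have := card_le_card h1
  rwa [card_range] at this

/-- Density between two leaves. -/
noncomputable def D0 (a b : Fin p → Fin q) : ℝ := if a = b then 0 else (lev a b : ℝ) / p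

theorem D0_nonneg (a b : Fin p → Fin q) : 0 ≤ D0 a b := by
  unfold D0; split_ifs <;> positivity

theorem D0_le_one (a b : Fin p → Fin q) : D0 a b ≤ 1 := by
  unfold D0
  split_ifs
  · norm_num
  · have := lev_le a b
    have h2 : (lev a b : ℝ) ≤ p := by exact_mod_cast this
    exact div_le_one_of_le₀ h2 (by positivity)

/-- Weight of a set of leaves. -/
noncomputable def wt (μ : (Fin p → Fin q) → ℝ) (X : Finset (Fin p → Fin q)) : ℝ := ∑ a ∈ X, μ a

/-- Edges between two sets of leaves. -/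
noncomputable def EE (μ : (Fin p → Fin q) → ℝ) (X Y : Finset (Fin p → Fin q)) : ℝ :=
  ∑ a ∈ X, ∑ b ∈ Y, μ a * μ b * D0 a b

theorem wt_mul (μ : (Fin p → Fin q) → ℝ) (X Y : Finset (Fin p → Fin q)) :
    wt μ X * wt μ Y = ∑ a ∈ X, ∑ b ∈ Y, μ a * μ b := by
  unfold wt; rw [sum_mul_sum]

theorem wt_nonneg {μ : (Fin p → Fin q) → ℝ} (h0 : ∀ a, 0 ≤ μ a) (X : Finset (Fin p → Fin q)) :
    0 ≤ wt μ X := sum_nonneg fun a _ => h0 a

theorem wt_fiber (μ : (Fin p → Fin q) → ℝ) (v : Finset (Fin p → Fin q)) (i : Fin p) :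
    ∑ c : Fin q, wt μ (v.filter (fun a => a i = c)) = wt μ v := by
  unfold wt
  exact sum_fiberwise v (fun a => a i) μ

theorem super_add {L : Type*} [DecidableEq L] (v : Finset L) (f : L → Fin q) (g : L → L → ℝ)
    (hg : ∀ a ∈ v, ∀ b ∈ v, f a ≠ f b → 0 ≤ g a b) :
    ∑ c : Fin q, ∑ a ∈ v.filter (fun a => f a = c), ∑ b ∈ v.filter (fun b => f b = c), g a b ≤
      ∑ a ∈ v, ∑ b ∈ v, g a b := by
  have h1 : ∀ c : Fin q, ∑ a ∈ v.filter (fun a => f a = c),
      ∑ b ∈ v.filter (fun b => f b = c), g a b =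
      ∑ a ∈ v.filter (fun a => f a = c), ∑ b ∈ v.filter (fun b => f b = f a), g a b := by
    intro c
    refine sum_congr rfl fun a ha => ?_
    rw [(mem_filter.1 ha).2]
  simp_rw [h1]
  rw [sum_fiberwise v f (fun a => ∑ b ∈ v.filter (fun b => f b = f a), g a b)]
  refine sum_le_sum fun a ha => ?_
  rw [sum_filter]
  refine sum_le_sum fun b hb => ?_
  split_ifs with h
  · exact le_rfl
  · exact hg a ha b hb (fun h' => h h'.symm)

theorem def_eq (μ : (Fin p → Fin q) → ℝ) (c : ℝ) (v : Finset (Fin p → Fin q)) :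
    ∑ a ∈ v, ∑ b ∈ v, μ a * μ b * (c - D0 a b) = c * wt μ v ^ 2 - EE μ v v := by
  rw [sq, wt_mul, EE, mul_sum, ← sum_sub_distrib]
  refine sum_congr rfl fun a _ => ?_
  rw [mul_sum, ← sum_sub_distrib]
  refine sum_congr rfl fun b _ => ?_
  ring

/-- The potential. -/
noncomputable def Psi (μ : (Fin p → Fin q) → ℝ) (D A θ : ℝ) (v : Finset (Fin p → Fin q)) : ℝ :=
  D * wt μ v ^ 2 - EE μ v v + A * wt μ v - θ * wt μ v ^ 2

theorem step {μ : (Fin p → Fin q) → ℝ} (h0 : ∀ a, 0 ≤ μ a) {D A θ : ℝ} (hθ : 0 ≤ θ) (hq : 0 < q)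
    (hlb : ∀ w : Finset (Fin p → Fin q), 0 ≤ D * wt μ w ^ 2 - EE μ w w + A * wt μ w)
    (v : Finset (Fin p → Fin q)) {k : ℕ} (hk : k < p)
    (hv : ∀ a ∈ v, ∀ b ∈ v, ∀ j : Fin p, (j : ℕ) < k → a j = b j)
    (hlow : (k : ℝ) / p ≤ D - 2 * θ) :
    ∃ w : Finset (Fin p → Fin q),
      (∀ a ∈ w, ∀ b ∈ w, ∀ j : Fin p, (j : ℕ) < k + 1 → a j = b j) ∧
      Psi μ D A θ w ≤ Psi μ D A θ v := by
  classical
  have : Nonempty (Fin q) := ⟨⟨0, hq⟩⟩
  set w : Fin q → Finset (Fin p → Fin q) := fun c => v.filter (fun a => a ⟨k, hk⟩ = c) with hw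
  set m : Fin q → ℝ := fun c => wt μ (w c) with hm
  obtain ⟨c0, -, hc0⟩ := exists_max_image (univ : Finset (Fin q)) m univ_nonempty
  refine ⟨w c0, ?_, ?_⟩
  · intro a ha b hb j hj
    rw [hw] at ha hb
    simp only [mem_filter] at ha hb
    rcases Nat.lt_succ_iff_lt_or_eq.1 hj with h | h
    · exact hv a ha.1 b hb.1 j h
    · have : j = ⟨k, hk⟩ := Fin.ext h
      rw [this, ha.2, hb.2]
  · have h1 := super_add v (fun a => a ⟨k, hk⟩)
      (fun a b => μ a * μ b * ((D - 2 * θ) - D0 a b)) (by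
        intro a ha b hb hne
        have hab : a ≠ b := fun h => hne (by rw [h])
        have h2 : D0 a b = (k : ℝ) / p := by
          unfold D0
          rw [if_neg hab, lev_eq hk (hv a ha b hb) hne]
        have := mul_nonneg (h0 a) (h0 b)
        rw [h2]
        exact mul_nonneg this (by linarith))
    simp_rw [def_eq] at h1
    have hsum : ∑ c, m c = wt μ v := wt_fiber μ v ⟨k, hk⟩
    have hm0 : ∀ c, 0 ≤ m c := fun c => wt_nonneg h0 _
    set F : Fin q → ℝ := fun c => (D - 2 * θ) * m c ^ 2 - EE μ (w c) (w c) with hF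
    have h1' : ∑ c, F c ≤ (D - 2 * θ) * wt μ v ^ 2 - EE μ v v := h1
    have h3 : ∀ c, -(2 * θ * m c ^ 2) ≤ F c + A * m c := by
      intro c
      have := hlb (w c)
      simp only [hF]
      have e : m c = wt μ (w c) := rfl
      rw [e]
      nlinarith
    set R : ℝ := ∑ c ∈ univ.erase c0, m c with hR
    have h4 : ∑ c, m c = m c0 + R := (add_sum_erase univ m (mem_univ c0)).symm
    have h5 : ∑ c, (F c + A * m c) = (F c0 + A * m c0) + ∑ c ∈ univ.erase c0, (F c + A * m c) :=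
      (add_sum_erase univ _ (mem_univ c0)).symm
    have h6 : -(2 * θ * (m c0 * R)) ≤ ∑ c ∈ univ.erase c0, (F c + A * m c) := by
      rw [hR, mul_sum, mul_sum, ← sum_neg_distrib]
      refine sum_le_sum fun c _ => ?_
      have h7 := h3 c
      have h8 : m c ^ 2 ≤ m c0 * m c := by
        rw [sq]
        exact mul_le_mul_of_nonneg_right (hc0 c (mem_univ c)) (hm0 c)
      nlinarith [mul_le_mul_of_nonneg_left h8 hθ]
    have hR0 : 0 ≤ R := sum_nonneg fun c _ => hm0 c
    have h9 : ∑ c, (F c + A * m c) = ∑ c, F c + A * wt μ v := by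
      rw [sum_add_distrib, ← mul_sum, hsum]
    have h10 : wt μ v = m c0 + R := by rw [← hsum, h4]
    have h11 : Psi μ D A θ (w c0) = F c0 + A * m c0 + θ * m c0 ^ 2 := by
      simp only [Psi, hF]
      have e : m c0 = wt μ (w c0) := rfl
      rw [e]
      ring
    have h12 : Psi μ D A θ v = (D - 2 * θ) * wt μ v ^ 2 - EE μ v v + A * wt μ v +
        θ * wt μ v ^ 2 := by
      simp only [Psi]
      ring
    rw [h11, h12]
    have h13 : θ * wt μ v ^ 2 = θ * m c0 ^ 2 + 2 * θ * (m c0 * R) + θ * R ^ 2 := by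
      rw [h10]; ring
    have h14 : 0 ≤ θ * R ^ 2 := by positivity
    linarith

theorem descend {μ : (Fin p → Fin q) → ℝ} (h0 : ∀ a, 0 ≤ μ a) {D A θ : ℝ} (hθ : 0 ≤ θ)
    (hq : 0 < q)
    (hlb : ∀ w : Finset (Fin p → Fin q), 0 ≤ D * wt μ w ^ 2 - EE μ w w + A * wt μ w)
    (k : ℕ) (hk : k ≤ p) (hlow : ∀ j < k, (j : ℝ) / p ≤ D - 2 * θ) :
    ∃ v : Finset (Fin p → Fin q),
      (∀ a ∈ v, ∀ b ∈ v, ∀ j : Fin p, (j : ℕ) < k → a j = b j) ∧
      Psi μ D A θ v ≤ Psi μ D A θ univ := by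
  induction k with
  | zero => exact ⟨univ, fun _ _ _ _ _ h => absurd h (Nat.not_lt_zero _), le_rfl⟩
  | succ k ih =>
    obtain ⟨v, hv, hΨ⟩ := ih (by omega) (fun j hj => hlow j (by omega))
    obtain ⟨w, hw, hΨ2⟩ := step h0 hθ hq hlb v (by omega : k < p) hv (hlow k (by omega))
    exact ⟨w, hw, hΨ2.trans hΨ⟩

theorem split {μ : (Fin p → Fin q) → ℝ} {h : ℝ} (hμ : ∀ a, μ a ≤ h)
    {A : ℝ} (w : Finset (Fin p → Fin q)) (hA : 0 < A) :
    A ≤ wt μ w → ∃ X ⊆ w, A ≤ wt μ X ∧ wt μ X ≤ A + h := by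
  classical
  induction w using Finset.induction_on with
  | empty => intro hw; simp [wt] at hw; linarith
  | insert a w ha ih =>
    intro hw
    by_cases h1 : A ≤ wt μ w
    · obtain ⟨X, hX, h2⟩ := ih h1
      exact ⟨X, hX.trans (subset_insert _ _), h2⟩
    · refine ⟨insert a w, subset_refl _, hw, ?_⟩
      have h2 : wt μ (insert a w) = μ a + wt μ w := by
        unfold wt; rw [sum_insert ha]
      rw [h2]
      have := hμ a
      linarith

theorem ker {μ : (Fin p → Fin q) → ℝ} {h : ℝ} (hp : 0 < p) (hq : 0 < q)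
    (h0 : ∀ a, 0 ≤ μ a) (hμ : ∀ a, μ a ≤ h) {α δ D : ℝ} (hα : 0 < α) (hαδ : α ≤ δ)
    (hD : 0 ≤ D) (hpδ : 10 * δ * p ≤ 1) (hqα : 10 * α * q ≤ 1) {M : ℝ}
    (hM : M = wt μ univ) (hM0 : 0 < M)
    (H1 : ∀ X Y : Finset (Fin p → Fin q), α * M ≤ wt μ X → α * M ≤ wt μ Y →
      EE μ X Y ≤ D * (wt μ X * wt μ Y))
    (H2 : (D - 3 / 2 * δ) * M ^ 2 ≤ EE μ univ univ) :
    M ≤ 2 * q * h := by
  classical
  have hp' : (0 : ℝ) < p := by exact_mod_cast hp
  have hq' : (1 : ℝ) ≤ q := by exact_mod_cast hq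
  have hδ : 0 < δ := lt_of_lt_of_le hα hαδ
  have hA : 0 < α * M := mul_pos hα hM0
  have hlb : ∀ w : Finset (Fin p → Fin q),
      0 ≤ D * wt μ w ^ 2 - EE μ w w + (α * M) * wt μ w := by
    intro w
    have hw0 := wt_nonneg h0 w
    by_cases hw : α * M ≤ wt μ w
    · have := H1 w w hw hw
      nlinarith [mul_nonneg hA.le hw0]
    · push Not at hw
      have h1 : EE μ w w ≤ wt μ w ^ 2 := by
        rw [sq, wt_mul, EE]
        refine sum_le_sum fun a _ => sum_le_sum fun b _ => ?_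
        have := D0_le_one a b
        exact mul_le_of_le_one_right (mul_nonneg (h0 a) (h0 b)) this
      have h2 : wt μ w ^ 2 ≤ (α * M) * wt μ w := by
        rw [sq]; exact mul_le_mul_of_nonneg_right hw.le hw0
      have h3 : 0 ≤ D * wt μ w ^ 2 := by positivity
      linarith
  have hex : ∃ k, k = p ∨ D - 2 * (5 * δ) < (k : ℝ) / p := ⟨p, Or.inl rfl⟩
  set K := Nat.find hex with hK
  have hKp : K ≤ p := Nat.find_min' hex (Or.inl rfl)
  have hKs : K = p ∨ D - 2 * (5 * δ) < (K : ℝ) / p := Nat.find_spec hex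
  obtain ⟨v, hv, hΨ⟩ := descend (D := D) (A := α * M) (θ := 5 * δ) h0 (by positivity) hq hlb K hKp
    (fun j hj => by
      have := Nat.find_min hex hj
      push Not at this
      exact this.2)
  have hΨu : Psi μ D (α * M) (5 * δ) univ ≤ -(5 / 2 * δ) * M ^ 2 := by
    unfold Psi
    rw [← hM]
    nlinarith [mul_le_mul_of_nonneg_right hαδ (sq_nonneg M)]
  have hΨv : -(5 * δ * wt μ v ^ 2) ≤ Psi μ D (α * M) (5 * δ) v := by
    have := hlb v
    unfold Psi
    linarith
  have hbig : M ^ 2 / 2 ≤ wt μ v ^ 2 := by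
    have h1 : δ * (M ^ 2 / 2) ≤ δ * wt μ v ^ 2 := by linarith
    exact le_of_mul_le_mul_left h1 hδ
  have hv0 := wt_nonneg h0 v
  by_contra hcon
  push Not at hcon
  have hh : 0 ≤ h := (h0 (fun _ => ⟨0, hq⟩)).trans (hμ _)
  by_cases hKp2 : K = p
  · -- a single leaf
    have h1 : wt μ v ≤ h := by
      rcases v.eq_empty_or_nonempty with rfl | ⟨a, ha⟩
      · simpa [wt] using hh
      · have : v = {a} := by
          ext b
          simp only [mem_singleton]
          constructor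
          · intro hb
            funext j
            exact hv b hb a ha j (by rw [hKp2]; exact j.2)
          · rintro rfl; exact ha
        rw [this]
        simpa [wt] using hμ a
    have h2 : wt μ v ^ 2 ≤ h ^ 2 := by gcongr
    have h3 : 2 * h ≤ 2 * q * h := by nlinarith
    nlinarith
  · have hKlt : K < p := lt_of_le_of_ne hKp hKp2
    have hD1 : D < ((K + 1 : ℕ) : ℝ) / p := by
      have h1 := hKs.resolve_left hKp2
      have h2 : ((K + 1 : ℕ) : ℝ) / p = (K : ℝ) / p + 1 / p := by push_cast; ring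
      have h3 : 10 * δ ≤ 1 / p := by
        rw [le_div_iff₀ hp']; exact hpδ
      rw [h2]; linarith
    have hchild : ∀ c : Fin q, wt μ (v.filter (fun a => a ⟨K, hKlt⟩ = c)) ≤ 2 * (α * M) + h := by
      intro c
      set w := v.filter (fun a => a ⟨K, hKlt⟩ = c) with hw
      by_contra hc
      push Not at hc
      have hww : ∀ a ∈ w, ∀ b ∈ w, ∀ j : Fin p, (j : ℕ) < K + 1 → a j = b j := by
        intro a ha b hb j hj
        rw [hw] at ha hb
        simp only [mem_filter] at ha hb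
        rcases Nat.lt_succ_iff_lt_or_eq.1 hj with h | h
        · exact hv a ha.1 b hb.1 j h
        · have : j = ⟨K, hKlt⟩ := Fin.ext h
          rw [this, ha.2, hb.2]
      obtain ⟨X, hX, hX1, hX2⟩ := split hμ w hA (by linarith)
      have hY : wt μ X + wt μ (w \ X) = wt μ w := by
        unfold wt
        rw [add_comm]
        exact sum_sdiff hX
      have hY1 : α * M ≤ wt μ (w \ X) := by linarith
      have h1 := H1 X (w \ X) hX1 hY1
      have h2 : ((K + 1 : ℕ) : ℝ) / p * (wt μ X * wt μ (w \ X)) ≤ EE μ X (w \ X) := by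
        rw [wt_mul, EE, mul_sum]
        refine sum_le_sum fun a ha => ?_
        rw [mul_sum]
        refine sum_le_sum fun b hb => ?_
        rw [mem_sdiff] at hb
        have hab : a ≠ b := fun h' => hb.2 (h' ▸ ha)
        have h3 := le_lev (by omega : K + 1 ≤ p) (hww a (hX ha) b hb.1)
        have h4 : ((K + 1 : ℕ) : ℝ) / p ≤ D0 a b := by
          unfold D0
          rw [if_neg hab]
          gcongr
        rw [mul_comm]
        exact mul_le_mul_of_nonneg_left h4 (mul_nonneg (h0 a) (h0 b))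
      have h5 : 0 < wt μ X * wt μ (w \ X) := mul_pos (by linarith) (by linarith)
      nlinarith
    have h1 : wt μ v ≤ q * (2 * (α * M) + h) := by
      rw [← wt_fiber μ v ⟨K, hKlt⟩]
      refine (sum_le_sum fun c _ => hchild c).trans ?_
      rw [sum_const, card_univ, Fintype.card_fin, nsmul_eq_mul]
    have h2 : q * (2 * (α * M) + h) ≤ 7 / 10 * M := by
      have : 10 * α * q * M ≤ 1 * M := by gcongr
      nlinarith
    have h3 : wt μ v ≤ 7 / 10 * M := h1.trans h2
    have h4 : wt μ v ^ 2 ≤ (7 / 10 * M) ^ 2 := by gcongr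
    nlinarith [sq_nonneg M, mul_pos hM0 hM0]

end Pool.Agent.RSU
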