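import Pool.Agent.RSU.Gad
import Pool.Agent.RSU.Ker

set_option autoImplicit false

namespace Pool.Agent.RSU

open Finset

variable {p q k : ℕ}

/-- The graph: levels of quasirandom graphs of increasing density. -/
def GG (p q k : ℕ) : SimpleGraph ((Fin p → Fin q) × (Fin k → ZMod p)) where
  Adj a b := a.1 ≠ b.1 ∧ (a.2 ⬝ᵥ b.2).val < lev a.1 b.1
  symm := ⟨by
    rintro a b ⟨h1, h2⟩
    refine ⟨h1.symm, ?_⟩
    rw [dotProduct_comm, lev_comm]
    exact h2⟩
  loopless := ⟨fun a h => h.1 rfl⟩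

instance (p q k : ℕ) : DecidableRel (GG p q k).Adj := fun a b => by
  unfold GG
  infer_instance

section

variable [Fact p.Prime]

/-- The part of `U` over a leaf. -/
def fib (U : Finset ((Fin p → Fin q) × (Fin k → ZMod p))) (a : Fin p → Fin q) :
    Finset (Fin k → ZMod p) := univ.filter (fun x => (a, x) ∈ U)

/-- The part of `U` over a set of leaves. -/
def ov (U : Finset ((Fin p → Fin q) × (Fin k → ZMod p))) (X : Finset (Fin p → Fin q)) :
    Finset ((Fin p → Fin q) × (Fin k → ZMod p)) := U.filter (fun u => u.1 ∈ X)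

theorem sum_ov (U : Finset ((Fin p → Fin q) × (Fin k → ZMod p))) (X : Finset (Fin p → Fin q))
    (f : (Fin p → Fin q) × (Fin k → ZMod p) → ℝ) :
    ∑ u ∈ ov U X, f u = ∑ a ∈ X, ∑ x ∈ fib U a, f (a, x) := by
  have h1 : ov U X = (X ×ˢ (univ : Finset (Fin k → ZMod p))).filter (fun u => u ∈ U) := by
    ext u
    simp [ov, and_comm]
  rw [h1, sum_filter, sum_product]
  refine sum_congr rfl fun a _ => ?_
  rw [fib, sum_filter]

/-- The weights. -/
noncomputable def mu (U : Finset ((Fin p → Fin q) × (Fin k → ZMod p))) (a : Fin p → Fin q) : ℝ :=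
  (fib U a).card

theorem wt_mu (U : Finset ((Fin p → Fin q) × (Fin k → ZMod p))) (X : Finset (Fin p → Fin q)) :
    wt (mu U) X = (ov U X).card := by
  have := sum_ov U X (fun _ => 1)
  simp only [sum_const, nsmul_eq_mul, mul_one] at this
  rw [this]
  rfl

theorem ov_univ (U : Finset ((Fin p → Fin q) × (Fin k → ZMod p))) : ov U univ = U := by
  simp [ov]

theorem inter_eq (U : Finset ((Fin p → Fin q) × (Fin k → ZMod p)))
    (X Y : Finset (Fin p → Fin q)) :
    (((GG p q k).interedges (ov U X) (ov U Y)).card : ℝ) =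
      ∑ a ∈ X, ∑ b ∈ Y, (((fib U a ×ˢ fib U b).filter
        (fun z => a ≠ b ∧ (z.1 ⬝ᵥ z.2).val < lev a b)).card : ℝ) := by
  have h1 : (((GG p q k).interedges (ov U X) (ov U Y)).card : ℝ) =
      ∑ u ∈ ov U X, ∑ v ∈ ov U Y, (if (GG p q k).Adj u v then (1 : ℝ) else 0) := by
    rw [SimpleGraph.interedges, Rel.interedges, card_filter]
    push_cast
    rw [sum_product]
  rw [h1, sum_ov]
  refine sum_congr rfl fun a _ => ?_
  have h2 : ∀ x ∈ fib U a, ∑ v ∈ ov U Y, (if (GG p q k).Adj (a, x) v then (1 : ℝ) else 0) =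
      ∑ b ∈ Y, ∑ y ∈ fib U b, (if (GG p q k).Adj (a, x) (b, y) then (1 : ℝ) else 0) :=
    fun x _ => sum_ov U Y _
  rw [sum_congr rfl h2, sum_comm]
  refine sum_congr rfl fun b _ => ?_
  rw [card_filter]
  push_cast
  rw [sum_product]
  rfl

end

theorem leaf_err {s : ℕ} [Fact p.Prime]
    (U : Finset ((Fin p → Fin q) × (Fin (2 * s) → ZMod p))) (a b : Fin p → Fin q) :
    |(((fib U a ×ˢ fib U b).filter
        (fun z => a ≠ b ∧ (z.1 ⬝ᵥ z.2).val < lev a b)).card : ℝ) -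
      mu U a * mu U b * D0 a b| ≤ (p : ℝ) ^ (3 * s + 1) := by
  by_cases hab : a = b
  · subst hab
    simp [D0]
  · have h1 := gadget s (fib U a) (fib U b) (lev a b) (lev_le a b)
    have h2 : (fib U a ×ˢ fib U b).filter (fun z => a ≠ b ∧ (z.1 ⬝ᵥ z.2).val < lev a b) =
        (fib U a ×ˢ fib U b).filter (fun z => (z.1 ⬝ᵥ z.2).val < lev a b) := by
      apply filter_congr
      intro z _
      simp [hab]
    rw [h2]
    unfold D0 mu
    rw [if_neg hab]
    refine le_trans (le_of_eq ?_) h1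
    congr 1
    ring

theorem inter_err {s : ℕ} [Fact p.Prime]
    (U : Finset ((Fin p → Fin q) × (Fin (2 * s) → ZMod p))) (X Y : Finset (Fin p → Fin q)) :
    |(((GG p q (2 * s)).interedges (ov U X) (ov U Y)).card : ℝ) - EE (mu U) X Y| ≤
      ((q : ℝ) ^ p) ^ 2 * (p : ℝ) ^ (3 * s + 1) := by
  rw [inter_eq, EE, ← sum_sub_distrib]
  refine (abs_sum_le_sum_abs _ _).trans ?_
  have h1 : ∀ a ∈ X, |∑ b ∈ Y, (((fib U a ×ˢ fib U b).filter
        (fun z => a ≠ b ∧ (z.1 ⬝ᵥ z.2).val < lev a b)).card : ℝ) -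
        ∑ b ∈ Y, mu U a * mu U b * D0 a b| ≤ (Y.card : ℝ) * (p : ℝ) ^ (3 * s + 1) := by
    intro a _
    rw [← sum_sub_distrib]
    refine (abs_sum_le_sum_abs _ _).trans ?_
    refine (sum_le_sum fun b _ => leaf_err U a b).trans ?_
    rw [sum_const, nsmul_eq_mul]
  refine (sum_le_sum h1).trans ?_
  rw [sum_const, nsmul_eq_mul]
  have hc : ∀ Z : Finset (Fin p → Fin q), (Z.card : ℝ) ≤ (q : ℝ) ^ p := by
    intro Z
    have := card_le_univ Z
    rw [Fintype.card_fun, Fintype.card_fin, Fintype.card_fin] at this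
    exact_mod_cast this
  have h2 := hc X
  have h3 := hc Y
  calc (X.card : ℝ) * (Y.card * (p : ℝ) ^ (3 * s + 1))
      ≤ (q : ℝ) ^ p * ((q : ℝ) ^ p * (p : ℝ) ^ (3 * s + 1)) := by gcongr
    _ = _ := by ring

theorem dens_mul {V : Type*} [DecidableEq V] (G : SimpleGraph V) [DecidableRel G.Adj]
    (A B : Finset V) (hA : 0 < A.card) (hB : 0 < B.card) :
    ((G.interedges A B).card : ℝ) = (G.edgeDensity A B : ℝ) * ((A.card : ℝ) * B.card) := by
  have hA' : (0 : ℝ) < A.card := by exact_mod_cast hA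
  have hB' : (0 : ℝ) < B.card := by exact_mod_cast hB
  rw [SimpleGraph.edgeDensity_def]
  push_cast
  field_simp

theorem main_bound {s : ℕ} [Fact p.Prime] (hq : 0 < q) {α δ : ℝ} (hα : 0 < α) (hαδ : α ≤ δ)
    (hpδ : 10 * δ * p ≤ 1) (hqα : 10 * α * q ≤ 1)
    (U : Finset ((Fin p → Fin q) × (Fin (2 * s) → ZMod p))) (hU : U.Nonempty)
    (hs : ((q : ℝ) ^ p) ^ 2 * (p : ℝ) ^ (3 * s + 1) ≤ δ / 4 * (α * U.card) ^ 2)
    (hreg : ∀ A ⊆ U, ∀ B ⊆ U, α * U.card ≤ A.card → α * U.card ≤ B.card →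
      ((GG p q (2 * s)).edgeDensity A B : ℝ) ≤ (GG p q (2 * s)).edgeDensity U U + δ) :
    (U.card : ℝ) ≤ 2 * q * (p : ℝ) ^ (2 * s) := by
  have hp : 0 < p := (Fact.out : p.Prime).pos
  have hq' : (1 : ℝ) ≤ q := by exact_mod_cast hq
  have hδ : 0 < δ := lt_of_lt_of_le hα hαδ
  have hUc : 0 < U.card := card_pos.2 hU
  have hM0 : (0 : ℝ) < U.card := by exact_mod_cast hUc
  have hα1 : α ≤ 1 := by nlinarith
  set d : ℝ := (((GG p q (2 * s)).edgeDensity U U : ℚ) : ℝ) with hd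
  have hd0 : 0 ≤ d := by
    rw [hd]
    exact_mod_cast SimpleGraph.edgeDensity_nonneg _ _ _
  set Er : ℝ := ((q : ℝ) ^ p) ^ 2 * (p : ℝ) ^ (3 * s + 1) with hEr
  refine ker (μ := mu U) (h := (p : ℝ) ^ (2 * s)) (D := d + 5 / 4 * δ) hp hq
    (fun a => by unfold mu; positivity) ?_ hα hαδ (by positivity) hpδ hqα
    (by rw [wt_mu, ov_univ]) hM0 ?_ ?_
  · intro a
    unfold mu
    have := card_le_univ (fib U a)
    rw [Fintype.card_fun, ZMod.card, Fintype.card_fin] at this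
    exact_mod_cast this
  · intro X Y hX hY
    rw [wt_mu] at hX hY
    rw [wt_mu, wt_mu]
    have hX0 : (0 : ℝ) < (ov U X).card := lt_of_lt_of_le (mul_pos hα hM0) hX
    have hY0 : (0 : ℝ) < (ov U Y).card := lt_of_lt_of_le (mul_pos hα hM0) hY
    have h1 := hreg (ov U X) (filter_subset _ _) (ov U Y) (filter_subset _ _) hX hY
    have h2 := (abs_le.1 (inter_err U X Y)).1
    rw [dens_mul _ _ _ (by exact_mod_cast hX0) (by exact_mod_cast hY0)] at h2
    have h3 : (α * U.card) ^ 2 ≤ ((ov U X).card : ℝ) * (ov U Y).card := by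
      rw [sq]; gcongr
    have h4 : Er ≤ δ / 4 * (((ov U X).card : ℝ) * (ov U Y).card) :=
      hs.trans (mul_le_mul_of_nonneg_left h3 (by positivity))
    have h5 := mul_le_mul_of_nonneg_right h1 (mul_pos hX0 hY0).le
    linarith
  · have h2 := (abs_le.1 (inter_err U univ univ)).2
    rw [ov_univ, dens_mul _ _ _ hUc hUc] at h2
    have h3 : (α * U.card) ^ 2 ≤ (U.card : ℝ) ^ 2 := by
      have : α * U.card ≤ 1 * U.card := by gcongr
      rw [one_mul] at this
      gcongr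
    have h4 : Er ≤ δ / 4 * (U.card : ℝ) ^ 2 :=
      hs.trans (mul_le_mul_of_nonneg_left h3 (by positivity))
    have h5 : (d : ℝ) * ((U.card : ℝ) * U.card) = d * (U.card : ℝ) ^ 2 := by ring
    rw [h5] at h2
    linarith

end Pool.Agent.RSU
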